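import Mathlib
import Pool.Agent.J4.H35.FermatOdd3

/-!
# Divisors of `2 ^ N + 1` with small odd part of `d - 1`
-/

set_option autoImplicit false

namespace Pool.Agent.J4.H64.FN

open Finset Pool.Agent.J4.H35.FO

/-- the divisibility which is the heart of the matter -/
lemma dvd_aux (N n k : ℕ) (h : k * 2 ^ n + 1 ∣ 2 ^ N + 1) :
    ((k * 2 ^ n + 1 : ℕ) : ℤ) ∣ (k : ℤ) ^ (N / n) + (-1) ^ (N / n) * 2 ^ (N % n) := by
  have h1 : ((k * 2 ^ n + 1 : ℕ) : ℤ) ∣ (2 : ℤ) ^ N + 1 := by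
    have := Int.natCast_dvd_natCast.2 h
    push_cast at this ⊢
    exact this
  have h2 : ((k * 2 ^ n + 1 : ℕ) : ℤ) ∣ ((k : ℤ) * 2 ^ n) ^ (N / n) - (-1) ^ (N / n) := by
    refine dvd_trans ?_ (sub_dvd_pow_sub_pow _ _ _)
    push_cast
    rw [sub_neg_eq_add]
  have h3 : (k : ℤ) ^ (N / n) + (-1) ^ (N / n) * 2 ^ (N % n) =
      (k : ℤ) ^ (N / n) * (2 ^ N + 1) - (((k : ℤ) * 2 ^ n) ^ (N / n) - (-1) ^ (N / n)) *
        2 ^ (N % n) := by
    have e : (2 : ℤ) ^ N = (2 ^ n) ^ (N / n) * 2 ^ (N % n) := by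
      rw [← pow_mul, ← pow_add, Nat.div_add_mod]
    rw [e, mul_pow]
    ring
  rw [h3]
  exact dvd_sub (Dvd.dvd.mul_left h1 _) (Dvd.dvd.mul_right h2 _)

/-- the inequality for one divisor -/
theorem div_lt {N n k : ℕ} (hn : 1 ≤ n) (hk : Odd k) (hk3 : 3 ≤ k)
    (h : k * 2 ^ n + 1 ∣ 2 ^ N + 1) : 5 * (k * 2 ^ n) < 6 * k ^ (N / n) := by
  have hnN : n ≤ N := by
    by_contra hlt
    push Not at hlt
    have h1 := Nat.le_of_dvd (by positivity) h
    have h2 : 2 ^ N < 2 ^ n := Nat.pow_lt_pow_right (by norm_num) hlt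
    have h3 : 1 * 2 ^ n ≤ k * 2 ^ n := Nat.mul_le_mul_right _ (by omega)
    omega
  have ha : 1 ≤ N / n := Nat.div_pos hnN hn
  have h1 := dvd_aux N n k h
  have hkodd : Odd (k ^ (N / n)) := hk.pow
  have hkgt : 1 < k ^ (N / n) := Nat.one_lt_pow (by omega) (by omega)
  have hne : (k : ℤ) ^ (N / n) + (-1) ^ (N / n) * 2 ^ (N % n) ≠ 0 := by
    intro h0
    have h2 : k ^ (N / n) = 2 ^ (N % n) := by
      have h3 : ((k ^ (N / n) : ℕ) : ℤ) = -((-1) ^ (N / n)) * 2 ^ (N % n) := by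
        push_cast
        linarith
      have h4 := congrArg Int.natAbs h3
      rw [Int.natAbs_natCast, Int.natAbs_mul, Int.natAbs_neg, Int.natAbs_pow, Int.natAbs_pow] at h4
      simpa using h4
    rcases Nat.eq_zero_or_pos (N % n) with h3 | h3
    · rw [h3, pow_zero] at h2
      omega
    · rw [h2] at hkodd
      exact absurd hkodd (by
        rw [Nat.not_odd_iff_even]
        exact Even.pow_of_ne_zero (by decide) (by omega))
  have h2 : ((k * 2 ^ n + 1 : ℕ) : ℤ) ≤ |(k : ℤ) ^ (N / n) + (-1) ^ (N / n) * 2 ^ (N % n)| :=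
    Int.le_of_dvd (abs_pos.2 hne) ((dvd_abs _ _).2 h1)
  have h3 : |(k : ℤ) ^ (N / n) + (-1) ^ (N / n) * 2 ^ (N % n)| ≤
      (k : ℤ) ^ (N / n) + 2 ^ (N % n) := by
    refine (abs_add_le _ _).trans (le_of_eq ?_)
    rw [abs_mul, abs_pow, abs_pow, abs_pow, abs_neg, abs_one, one_pow, one_mul]
    simp
  have h4 : k * 2 ^ n + 1 ≤ k ^ (N / n) + 2 ^ (N % n) := by
    have := h2.trans h3
    exact_mod_cast this
  have h5 : 2 * 2 ^ (N % n) ≤ 2 ^ n := by
    rw [← pow_succ']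
    exact Nat.pow_le_pow_right (by norm_num) (Nat.mod_lt _ (by omega))
  have h6 : 3 * 2 ^ n ≤ k * 2 ^ n := Nat.mul_le_mul_right _ hk3
  omega

/-- the odd part is one only for the improper divisor of a Fermat number -/
lemma three_le_of_proper {m n k : ℕ} (hn : 1 ≤ n) (hk : Odd k)
    (h : k * 2 ^ n + 1 ∣ 2 ^ (2 ^ m) + 1) (hlt : k * 2 ^ n < 2 ^ (2 ^ m)) : 3 ≤ k := by
  by_contra hcon
  have hk1 : k = 1 := by
    obtain ⟨c, hc⟩ := hk
    omega
  subst hk1
  rw [one_mul] at hlt h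
  have hnN : n < 2 ^ m := (Nat.pow_lt_pow_iff_right (by norm_num)).1 hlt
  set N := 2 ^ m with hN
  have h1 := dvd_aux N n 1 (by rwa [one_mul])
  rw [one_mul] at h1
  have h5 : 2 * 2 ^ (N % n) ≤ 2 ^ n := by
    rw [← pow_succ']
    exact Nat.pow_le_pow_right (by norm_num) (Nat.mod_lt _ (by omega))
  have h3 : |((1 : ℕ) : ℤ) ^ (N / n) + (-1) ^ (N / n) * 2 ^ (N % n)| ≤ 1 + 2 ^ (N % n) := by
    refine (abs_add_le _ _).trans (le_of_eq ?_)
    rw [abs_mul, abs_pow, abs_pow, abs_neg, abs_one, one_pow, one_mul]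
    simp
  have hz : ((1 : ℕ) : ℤ) ^ (N / n) + (-1) ^ (N / n) * 2 ^ (N % n) = 0 := by
    by_contra hne
    have h2 := Int.le_of_dvd (abs_pos.2 hne) ((dvd_abs _ _).2 h1)
    have h4 := h2.trans h3
    have h6 : 2 ^ n + 1 ≤ 1 + 2 ^ (N % n) := by exact_mod_cast h4
    have h7 : 0 < 2 ^ n := by positivity
    omega
  have hmod : N % n = 0 := by
    by_contra hne
    have h8 : (2 : ℤ) ∣ 2 ^ (N % n) := dvd_pow_self 2 hne
    have h9 : (2 : ℤ) ∣ 1 := by
      have e : (1 : ℤ) = -((-1) ^ (N / n) * 2 ^ (N % n)) := by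
        simp only [Nat.cast_one, one_pow] at hz
        linarith
      rw [e, dvd_neg]
      exact Dvd.dvd.mul_left h8 _
    norm_num at h9
  have hodd : Odd (N / n) := by
    rw [hmod, pow_zero, mul_one] at hz
    by_contra hev
    rw [Nat.not_odd_iff_even] at hev
    rw [hev.neg_one_pow] at hz
    norm_num at hz
  have hdiv : N / n ∣ 2 ^ m := by
    rw [← hN]
    exact Nat.div_dvd_of_dvd (Nat.dvd_of_mod_eq_zero hmod)
  obtain ⟨j, hj, hj2⟩ := (Nat.dvd_prime_pow Nat.prime_two).1 hdiv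
  have hj0 : j = 0 := by
    by_contra hne
    rw [hj2] at hodd
    exact absurd hodd (by
      rw [Nat.not_odd_iff_even]
      exact Even.pow_of_ne_zero (by decide) (by omega))
  rw [hj0, pow_zero] at hj2
  have h10 := Nat.div_add_mod N n
  rw [hj2, hmod] at h10
  omega

/-- real form: linear inequalities for the logarithms -/
lemma log_ineq {N n k : ℕ} (hn : 1 ≤ n) (hk3 : 3 ≤ k)
    (h : 5 * (k * 2 ^ n) < 6 * k ^ (N / n)) (t : ℝ) :
    2 * t * Real.log (5 / 6 * (k * 2 ^ n)) -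
      t ^ 2 * (N * Real.log 2 + Real.log (5 / 6 * (k * 2 ^ n))) < Real.log k := by
  have hl2 : 0 < Real.log 2 := Real.log_pos (by norm_num)
  have hk0 : (0 : ℝ) < k := by
    have : 0 < k := by omega
    exact_mod_cast this
  have hk1 : (1 : ℝ) < k := by
    have : 1 < k := by omega
    exact_mod_cast this
  have hlk : 0 < Real.log k := Real.log_pos hk1
  have hn0 : (0 : ℝ) < n := by exact_mod_cast hn
  set s := Real.log (5 / 6 * ((k : ℝ) * 2 ^ n)) with hs
  have hse : s = Real.log (5 / 6) + Real.log k + n * Real.log 2 := by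
    rw [hs, Real.log_mul (by norm_num) (by positivity), Real.log_mul hk0.ne' (by positivity),
      Real.log_pow]
    ring
  have h56 : Real.log (5 / 6) < 0 := Real.log_neg (by norm_num) (by norm_num)
  have hspos : 0 < s := by
    rw [hs]
    apply Real.log_pos
    have h3 : (3 : ℝ) ≤ k := by exact_mod_cast hk3
    have h4 : (2 : ℝ) ≤ 2 ^ n := by
      calc (2 : ℝ) = 2 ^ 1 := by norm_num
        _ ≤ 2 ^ n := pow_le_pow_right₀ (by norm_num) hn
    nlinarith
  -- the basic inequality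
  have h1 : s < (N / n : ℕ) * Real.log k := by
    have h2 : (5 : ℝ) / 6 * (k * 2 ^ n) < k ^ (N / n) := by
      have h3 : (5 : ℝ) * (k * 2 ^ n) < 6 * k ^ (N / n) := by exact_mod_cast h
      linarith
    rw [hs, ← Real.log_pow]
    exact Real.log_lt_log (by positivity) h2
  have h2 : (n : ℝ) * s < N * Real.log k := by
    have h3 : ((N / n : ℕ) : ℝ) * n ≤ N := by exact_mod_cast Nat.div_mul_le_self N n
    calc (n : ℝ) * s < n * ((N / n : ℕ) * Real.log k) := mul_lt_mul_of_pos_left h1 hn0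
      _ = (((N / n : ℕ) : ℝ) * n) * Real.log k := by ring
      _ ≤ N * Real.log k := mul_le_mul_of_nonneg_right h3 hlk.le
  -- multiply by `log 2`
  have h3 : (s - Real.log k) * s < (N * Real.log 2) * Real.log k := by
    have h4 : (n * Real.log 2) * s < (N * Real.log 2) * Real.log k := by nlinarith
    have h5 : s - Real.log k ≤ n * Real.log 2 := by rw [hse]; linarith
    nlinarith
  have hN0 : 0 ≤ (N : ℝ) * Real.log 2 := by positivity
  have h4 : s ^ 2 < Real.log k * (N * Real.log 2 + s) := by nlinarith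
  have h5 : (2 * t * s - t ^ 2 * (N * Real.log 2 + s)) * (N * Real.log 2 + s) ≤ s ^ 2 := by
    nlinarith [sq_nonneg (s - t * (N * Real.log 2 + s))]
  have h6 : 0 < N * Real.log 2 + s := by linarith
  by_contra hcon
  push Not at hcon
  have h7 := mul_le_mul_of_nonneg_right hcon h6.le
  linarith

end Pool.Agent.J4.H64.FN
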