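import Mathlib
import Pool.Agent.J4.H64.FN.Div

/-!
# Factorizations of composite Fermat numbers: the product of the odd parts
-/

set_option autoImplicit false

namespace Pool.Agent.J4.H64.FN

open Finset Pool.Agent.J4.H35.FO

lemma oddPart_eq_one_or {m d : ℕ} (hd : d ∣ Nat.fermatNumber m) (h1 : 1 < d)
    (hlt : d < Nat.fermatNumber m) :
    ∃ n : ℕ, 1 ≤ n ∧ n = (d - 1).factorization 2 ∧ oddPart (d - 1) * 2 ^ n = d - 1 ∧
      3 ≤ oddPart (d - 1) ∧ Odd (oddPart (d - 1)) := by
  have h2 := oddPart_spec (d - 1)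
  have hodd : Odd d := (Nat.odd_fermatNumber m).of_dvd_nat hd
  have h3 := oddPart_odd (x := d - 1) (by omega)
  have hn : 1 ≤ (d - 1).factorization 2 := by
    by_contra hcon
    have h0 : (d - 1).factorization 2 = 0 := by omega
    rw [h0, pow_zero, mul_one] at h2
    rw [← h2] at h3
    obtain ⟨a, ha⟩ := hodd
    obtain ⟨b, hb⟩ := h3
    omega
  refine ⟨_, hn, rfl, h2.symm, ?_, h3⟩
  refine three_le_of_proper (m := m) hn h3 ?_ ?_
  · rw [← h2, Nat.sub_add_cancel h1.le]
    exact hd
  · rw [← h2]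
    have : Nat.fermatNumber m = 2 ^ (2 ^ m) + 1 := rfl
    omega

theorem proper_div {m d : ℕ} (hd : d ∣ Nat.fermatNumber m) (h1 : 1 < d)
    (hlt : d < Nat.fermatNumber m) : 3 ≤ oddPart (d - 1) ∧
    5 * (d - 1) < 6 * oddPart (d - 1) ^ (2 ^ m / (d - 1).factorization 2) := by
  obtain ⟨n, hn, hn2, h2, h3, h4⟩ := oddPart_eq_one_or hd h1 hlt
  refine ⟨h3, ?_⟩
  rw [← hn2]
  have h5 := div_lt (N := 2 ^ m) hn h4 h3 (by
    rw [h2, Nat.sub_add_cancel h1.le]
    exact hd)
  rwa [h2] at h5

theorem prod_bound (m r : ℕ) (hr : 2 ≤ r) (d : Fin r → ℕ) (hd : ∀ i, 1 < d i)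
    (hp : ∏ i, d i = Nat.fermatNumber m) :
    (Nat.fermatNumber m : ℝ) < (2 * ∏ i, (oddPart (d i - 1) : ℝ)) ^ (r + 1) := by
  classical
  have hl2 : 0 < Real.log 2 := Real.log_pos (by norm_num)
  set F := Nat.fermatNumber m with hF
  have hF3 : 3 ≤ F := Nat.three_le_fermatNumber m
  have hdvd : ∀ i, d i ∣ F := fun i => by rw [← hp]; exact dvd_prod_of_mem d (mem_univ i)
  have hlt : ∀ i, d i < F := by
    intro i
    obtain ⟨j, hj⟩ : ∃ j : Fin r, j ≠ i := by
      have : Nontrivial (Fin r) := Fin.nontrivial_iff_two_le.2 hr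
      exact exists_ne i
    have h1 : d j * d i ∣ F := by
      rw [← hp, ← Finset.prod_pair hj]
      exact Finset.prod_dvd_prod_of_subset _ _ _ (subset_univ _)
    have h2 := Nat.le_of_dvd (by omega) h1
    have h3 := hd j
    have h4 := hd i
    nlinarith
  have hR : (0 : ℝ) < (r : ℝ) + 1 := by positivity
  set t : ℝ := 1 / ((r : ℝ) + 1) with ht
  have ht0 : 0 < t := by positivity
  have ht1 : t ≤ 1 := by
    rw [ht, div_le_one hR]
    linarith [(Nat.cast_nonneg r : (0 : ℝ) ≤ r)]
  set c : ℝ := Real.log (7 / 5) with hc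
  have hc2 : 2 * c < Real.log 2 := by
    have h1 : 2 * c = Real.log ((7 / 5) ^ 2) := by
      rw [Real.log_pow, hc]
      norm_num
    rw [h1]
    exact Real.log_lt_log (by norm_num) (by norm_num)
  have hc0 : 0 < c := Real.log_pos (by norm_num)
  set LN : ℝ := (2 ^ m : ℕ) * Real.log 2 with hLN
  have hLF : LN ≤ Real.log F := by
    rw [hLN, ← Real.log_pow]
    apply Real.log_le_log (by positivity)
    have h1 : 2 ^ (2 ^ m) ≤ F := by
      rw [hF]
      exact Nat.le_succ _
    exact_mod_cast h1
  have hkey : ∀ i, (2 * t - t ^ 2) * (Real.log (d i) - c) - t ^ 2 * LN <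
      Real.log (oddPart (d i - 1)) := by
    intro i
    obtain ⟨n, hn, -, h2, h3, h4⟩ := oddPart_eq_one_or (hdvd i) (hd i) (hlt i)
    have h5 := div_lt (N := 2 ^ m) hn h4 h3 (by
      rw [h2, Nat.sub_add_cancel (hd i).le]
      exact hdvd i)
    have h6 := log_ineq hn h3 h5 t
    have h7 : Real.log (d i) - c ≤ Real.log (5 / 6 * ((oddPart (d i - 1) : ℝ) * 2 ^ n)) := by
      have hdi : 7 ≤ d i := by
        have e1 : 2 ^ 1 ≤ 2 ^ n := Nat.pow_le_pow_right (by norm_num) hn
        have e2 : 3 * 2 ^ 1 ≤ oddPart (d i - 1) * 2 ^ n := Nat.mul_le_mul h3 e1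
        omega
      have hd0 : (0 : ℝ) < d i := by
        have : 0 < d i := by omega
        exact_mod_cast this
      have e3 : ((oddPart (d i - 1) : ℝ) * 2 ^ n) = d i - 1 := by
        have e4 : oddPart (d i - 1) * 2 ^ n + 1 = d i := by omega
        have e5 : ((oddPart (d i - 1) : ℝ) * 2 ^ n) + 1 = d i := by exact_mod_cast e4
        linarith
      rw [e3, hc, ← Real.log_div hd0.ne' (by norm_num)]
      apply Real.log_le_log (by positivity)
      have : (7 : ℝ) ≤ d i := by exact_mod_cast hdi
      linarith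
    set s := Real.log (5 / 6 * ((oddPart (d i - 1) : ℝ) * 2 ^ n)) with hs
    have h8 : 0 ≤ 2 * t - t ^ 2 := by nlinarith
    have h9 := mul_le_mul_of_nonneg_left h7 h8
    have h10 : 2 * t * s - t ^ 2 * (((2 ^ m : ℕ) : ℝ) * Real.log 2 + s) =
        (2 * t - t ^ 2) * s - t ^ 2 * LN := by
      rw [hLN]
      ring
    rw [h10] at h6
    linarith
  have hne : (univ : Finset (Fin r)).Nonempty := by
    have : Nonempty (Fin r) := ⟨⟨0, by omega⟩⟩
    exact univ_nonempty
  have hsum := Finset.sum_lt_sum_of_nonempty hne fun i _ => hkey i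
  have hk0 : ∀ i, (0 : ℝ) < oddPart (d i - 1) := by
    intro i
    obtain ⟨n, -, -, -, h3, -⟩ := oddPart_eq_one_or (hdvd i) (hd i) (hlt i)
    have : 0 < oddPart (d i - 1) := by omega
    exact_mod_cast this
  have hd0 : ∀ i, (d i : ℝ) ≠ 0 := by
    intro i
    have : d i ≠ 0 := by have := hd i; omega
    exact_mod_cast this
  have hlogF : ∑ i, Real.log (d i) = Real.log F := by
    rw [← Real.log_prod (fun i _ => hd0 i), ← hp]
    push_cast
    rfl
  have hlogK : ∑ i, Real.log (oddPart (d i - 1)) = Real.log (∏ i, (oddPart (d i - 1) : ℝ)) := by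
    rw [← Real.log_prod (fun i _ => (hk0 i).ne')]
  rw [hlogK, Finset.sum_sub_distrib, ← Finset.mul_sum, Finset.sum_sub_distrib, hlogF] at hsum
  simp only [Finset.sum_const, Finset.card_univ, Fintype.card_fin, nsmul_eq_mul] at hsum
  set P := ∏ i, (oddPart (d i - 1) : ℝ) with hP
  have hP0 : 0 < P := Finset.prod_pos fun i _ => hk0 i
  have hF0 : (0 : ℝ) < F := by
    have : 0 < F := by omega
    exact_mod_cast this
  have hfin : Real.log F < (r + 1) * (Real.log 2 + Real.log P) := by
    have e1 : ((r : ℝ) + 1) * t = 1 := by rw [ht]; field_simp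
    have e2 : ((r : ℝ) + 1) * ((2 * t - t ^ 2) * (Real.log F - r * c) - r * (t ^ 2 * LN)) =
        (2 - t) * (Real.log F - r * c) - r * t * LN := by
      have : ((r : ℝ) + 1) * ((2 * t - t ^ 2) * (Real.log F - r * c) - r * (t ^ 2 * LN)) =
        ((((r : ℝ) + 1) * t) * (2 - t)) * (Real.log F - r * c) - r * ((((r : ℝ) + 1) * t) * t) * LN := by
        ring
      rw [this, e1]
      ring
    have e3 := mul_lt_mul_of_pos_left hsum hR
    rw [e2] at e3
    have hr0 : (0 : ℝ) ≤ r := Nat.cast_nonneg r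
    have e4 : (r : ℝ) * t * LN ≤ r * t * Real.log F :=
      mul_le_mul_of_nonneg_left hLF (by positivity)
    have e5 : (r : ℝ) * t = 1 - t := by linarith
    rw [e5] at e4
    have e6 : (2 - t) * (Real.log F - r * c) = (2 - t) * Real.log F - (2 - t) * (r * c) := by ring
    have e7 : (2 - t) * (r * c) ≤ 2 * (r * c) :=
      mul_le_mul_of_nonneg_right (by linarith) (by positivity)
    have e8 : r * (2 * c) ≤ r * Real.log 2 := mul_le_mul_of_nonneg_left hc2.le hr0
    rw [e5] at e3
    nlinarith
  have h1 : Real.log F < Real.log ((2 * P) ^ (r + 1)) := by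
    rw [Real.log_pow, Real.log_mul (by norm_num) hP0.ne']
    push_cast
    exact hfin
  exact (Real.log_lt_log_iff hF0 (by positivity)).1 h1

theorem totient_bound (m : ℕ) (hF : ¬ (Nat.fermatNumber m).Prime) :
    ∃ r : ℕ, 3 ^ r ≤ oddPart (Nat.fermatNumber m).totient ∧
      (Nat.fermatNumber m : ℝ) < (2 * (oddPart (Nat.fermatNumber m).totient : ℝ)) ^ (r + 1) := by
  have h3 := (totient_main m hF).1
  refine ⟨_, h3, ?_⟩
  set F := Nat.fermatNumber m with hFd
  have hF3 : 3 ≤ F := Nat.three_le_fermatNumber m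
  have hFodd : Odd F := Nat.odd_fermatNumber m
  have hlist := list_le F hFodd
  have hprod : F.primeFactorsList.prod = F := Nat.prod_primeFactorsList (by omega)
  have hmem : ∀ p ∈ F.primeFactorsList, p.Prime := fun p hp => Nat.prime_of_mem_primeFactorsList hp
  have hr2 : 2 ≤ F.primeFactorsList.length := by
    by_contra hlt
    have h0 : F.primeFactorsList.length = 0 ∨ F.primeFactorsList.length = 1 := by omega
    rcases h0 with h0 | h0
    · rw [List.length_eq_zero_iff.mp h0] at hprod
      simp at hprod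
      omega
    · obtain ⟨a, ha⟩ := List.length_eq_one_iff.mp h0
      have h1 := hmem a (by rw [ha]; simp)
      rw [ha] at hprod
      simp at hprod
      rw [hprod] at h1
      exact hF h1
  have h1 := prod_bound m F.primeFactorsList.length hr2 (fun i => F.primeFactorsList[i.1])
    (fun i => (hmem _ (List.getElem_mem _)).one_lt) (by
      rw [Fin.prod_univ_getElem, hprod])
  refine h1.trans_le ?_
  refine pow_le_pow_left₀ (by positivity) ?_ _
  refine mul_le_mul_of_nonneg_left ?_ (by norm_num)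
  have h2 : ∏ i : Fin F.primeFactorsList.length, (oddPart (F.primeFactorsList[i.1] - 1) : ℝ) =
      ((F.primeFactorsList.map fun p => oddPart (p - 1)).prod : ℕ) := by
    rw [← Fin.prod_univ_fun_getElem]
    push_cast
    rfl
  rw [h2]
  exact_mod_cast hlist

theorem totient_exp (m : ℕ) (hF : ¬ (Nat.fermatNumber m).Prime) :
    Real.exp (√(Real.log 3 * Real.log (Nat.fermatNumber m))) <
      √6 * oddPart (Nat.fermatNumber m).totient := by
  obtain ⟨r, h1, h2⟩ := totient_bound m hF
  have hF3 : 3 ≤ Nat.fermatNumber m := Nat.three_le_fermatNumber m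
  set F := Nat.fermatNumber m with hFd
  set K := oddPart F.totient with hK
  have hK1 : 1 ≤ K := (Nat.one_le_pow _ _ (by norm_num)).trans h1
  have hK0 : (0 : ℝ) < K := by exact_mod_cast hK1
  have hF0 : (0 : ℝ) < F := by
    have : 0 < F := by omega
    exact_mod_cast this
  have hl3 : 0 < Real.log 3 := Real.log_pos (by norm_num)
  have hl2 : 0 < Real.log 2 := Real.log_pos (by norm_num)
  have e1 : (r : ℝ) * Real.log 3 ≤ Real.log K := by
    rw [← Real.log_pow]
    apply Real.log_le_log (by positivity)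
    exact_mod_cast h1
  have e2 : Real.log F < (r + 1) * (Real.log 2 + Real.log K) := by
    have := Real.log_lt_log hF0 h2
    rw [Real.log_pow, Real.log_mul (by norm_num) hK0.ne'] at this
    push_cast at this
    exact this
  have hlK : 0 ≤ Real.log K := Real.log_natCast_nonneg K
  have hlF : 0 < Real.log F := Real.log_pos (by
    have : 1 < F := by omega
    exact_mod_cast this)
  have e3 : Real.log 3 * Real.log F < (Real.log 3 + Real.log K) * (Real.log 2 + Real.log K) := by
    have e4 : Real.log 3 * Real.log F < Real.log 3 * ((r + 1) * (Real.log 2 + Real.log K)) :=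
      mul_lt_mul_of_pos_left e2 hl3
    have e5 : Real.log 3 * ((r + 1) * (Real.log 2 + Real.log K)) =
        (r * Real.log 3 + Real.log 3) * (Real.log 2 + Real.log K) := by ring
    have e6 : (r * Real.log 3 + Real.log 3) * (Real.log 2 + Real.log K) ≤
        (Real.log 3 + Real.log K) * (Real.log 2 + Real.log K) :=
      mul_le_mul_of_nonneg_right (by linarith) (by linarith)
    linarith
  have e7 : Real.log (√6 * K) = (Real.log 3 + Real.log 2) / 2 + Real.log K := by
    rw [Real.log_mul (by positivity) hK0.ne', Real.log_sqrt (by norm_num),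
      ← Real.log_mul (by norm_num) (by norm_num)]
    norm_num
  have e8 : √(Real.log 3 * Real.log F) < Real.log (√6 * K) := by
    have h9 : 0 < Real.log (√6 * K) := by rw [e7]; linarith
    rw [Real.sqrt_lt' h9, e7]
    nlinarith [sq_nonneg (Real.log 3 - Real.log 2)]
  have e9 : 0 < √6 * (K : ℝ) := by positivity
  calc Real.exp (√(Real.log 3 * Real.log F)) < Real.exp (Real.log (√6 * K)) := Real.exp_lt_exp.2 e8
    _ = √6 * K := Real.exp_log e9

theorem prime_iff (m : ℕ) : (Nat.fermatNumber m).Prime ↔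
    √6 * oddPart (Nat.fermatNumber m).totient ≤
      Real.exp (√(Real.log 3 * Real.log (Nat.fermatNumber m))) := by
  constructor
  · intro hp
    have h3 : oddPart (Nat.fermatNumber m).totient = 1 := by
      rw [Nat.totient_prime hp, Nat.fermatNumber, Nat.add_sub_cancel]
      unfold oddPart
      rw [Nat.Prime.factorization_pow Nat.prime_two]
      simp
    rw [h3, Nat.cast_one, mul_one]
    have hl3 : 0 < Real.log 3 := Real.log_pos (by norm_num)
    have h4 : Real.log 3 ≤ Real.log (Nat.fermatNumber m) := by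
      apply Real.log_le_log (by norm_num)
      exact_mod_cast Nat.three_le_fermatNumber m
    have h5 : Real.log 3 ≤ √(Real.log 3 * Real.log (Nat.fermatNumber m)) := by
      apply Real.le_sqrt_of_sq_le
      nlinarith
    have h6 : (3 : ℝ) ≤ Real.exp (√(Real.log 3 * Real.log (Nat.fermatNumber m))) := by
      calc (3 : ℝ) = Real.exp (Real.log 3) := (Real.exp_log (by norm_num)).symm
        _ ≤ _ := Real.exp_le_exp.2 h5
    have h7 : √6 ≤ 3 := by
      rw [Real.sqrt_le_left (by norm_num)]
      norm_num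
    linarith
  · intro h
    by_contra hF
    exact absurd (totient_exp m hF) (not_lt.2 h)

theorem liars_exp (m : ℕ) (hF : ¬ (Nat.fermatNumber m).Prime) :
    (Set.ncard {b : ZMod (Nat.fermatNumber m) | b ^ (Nat.fermatNumber m - 1) = 1} : ℝ) *
      Real.exp (√(Real.log 3 * Real.log (Nat.fermatNumber m))) ≤ √6 * Nat.fermatNumber m := by
  have hFpos : Nat.fermatNumber m ≠ 0 := by
    have := Nat.three_le_fermatNumber m
    omega
  have h3 := liars (Nat.fermatNumber m) (2 ^ m) hFpos
  have h4 : Nat.fermatNumber m - 1 = 2 ^ (2 ^ m) := by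
    rw [Nat.fermatNumber, Nat.add_sub_cancel]
  rw [h4]
  have h5 := (totient_exp m hF).le
  calc (Set.ncard {b : ZMod (Nat.fermatNumber m) | b ^ (2 ^ (2 ^ m)) = 1} : ℝ) *
        Real.exp (√(Real.log 3 * Real.log (Nat.fermatNumber m)))
      ≤ (Set.ncard {b : ZMod (Nat.fermatNumber m) | b ^ (2 ^ (2 ^ m)) = 1} : ℝ) *
        (√6 * oddPart (Nat.fermatNumber m).totient) :=
        mul_le_mul_of_nonneg_left h5 (by positivity)
    _ = √6 * ((Set.ncard {b : ZMod (Nat.fermatNumber m) | b ^ (2 ^ (2 ^ m)) = 1} : ℝ) *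
        oddPart (Nat.fermatNumber m).totient) := by ring
    _ ≤ √6 * Nat.fermatNumber m := by
        apply mul_le_mul_of_nonneg_left _ (by positivity)
        exact_mod_cast h3

end Pool.Agent.J4.H64.FN
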